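import Pool.Agent.W5h2.RG.Main

/-!
# Extensions whose kernel is a graph product, with vertex groups permuted up to a filtration

`C` is any class of groups with the closure properties `ClosedE C` which contains the groups `F ⋊ Z` for
all free groups `F` and all automorphisms of `F`, and all solvable groups (part two only). All this is
published for the class of groups which satisfy the Full Farrell–Jones Conjecture.

**Part one.** Let `N` be a normal subgroup of `G` with `G ⧸ N` in `C`, and let `N` be the graph product, over
any graph `Λ` with any set `I` of vertices, of arbitrary subgroups `A i`. Let `r : I → ℕ` be bounded, and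
let `Low k` be the normal closure in `N` of the `A j` with `r j < k`. Suppose that conjugation by the
elements of `G` permutes the `N`-conjugacy classes of the groups `A i Low (r i)`, preserving `r`. If the
image of `A i ⟨g⟩` modulo `Low (r i)` is in `C` for all `i` and all `g` in `G` that normalize
`A i Low (r i)`, then `G` is in `C`. For `r = 0` the groups `Low k` are trivial and this is the theorem in
which the `A i` themselves are permuted.

**Part two.** Let `N` be the graph product of arbitrary abelian groups over a graph `Γ` and let all elements
of `G` act on `N` by standard automorphisms: products of automorphisms of the following kinds and their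
inverses.

* automorphisms that permute the vertex groups by an automorphism of the graph,
* transvections: `x ↦ x θ(x)` for `x ∈ A v`, where `θ : A v → A w` is a homomorphism, `w` is adjacent to `v`
  and the link of `v` lies in the star of `w`,
* transvections `b ↦ b c`, `b ↦ c b` with `c ∈ A w`, if `A v` is infinite cyclic, generated by `b`, and
  the link of `v` lies in the star of `w`,
* partial conjugations by elements of `A w` on a union of components of the complement of the star of `w`.

If `G ⧸ N` is in `C`, then `G` is in `C`. The graph may be infinite, provided that the domination order has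
a bounded height function; finite graphs have one by part three. (The cited literature: for finite graphs
and cyclic vertex groups of infinite or prime power order, the standard automorphisms are all the
automorphisms, by Laurence and by Corredor and Gutierrez; this is not used.)

Outline of the proof of part one.

* For `S ⊆ I` let `Gen S` be generated by the `A i`, `i ∈ S`. The kernel of the retraction of `N` onto
  `Gen S` is again a graph product, of the conjugates `t A j t⁻¹`, `j ∉ S`, where `t` runs through
  representatives of the cosets `Gen S ⧸ Gen (S ∩ link j)`.
* With `S = {j | 1 ≤ r j}`, the kernel is `Low 1`. It is the graph product of groups of height `0`, whose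
  `N`-conjugacy classes are permuted by `G`, so the theorem on graph products with permuted vertex groups
  applies to `Low 1` in `G`, if `G ⧸ Low 1` is in `C`.
* `G ⧸ Low 1` is an extension with kernel `N ⧸ Low 1`, the graph product of the `A j`, `1 ≤ r j`, with height
  function `r - 1`: induction.

Outline of the proof of part two. Call vertices equivalent if they dominate each other. A class is a clique
or it is independent with infinite cyclic vertex groups; `N` is the graph product of the groups `A q`
generated by the classes `q`, over the graph of the classes. Each `A q` is abelian or free. The standard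
automorphisms permute the groups `A q Low (r q)` up to conjugation. So the hypotheses of part one hold: the
groups in question are images of abelian-by-cyclic groups or free-by-cyclic groups.
-/

set_option autoImplicit false

namespace Pool.Agent.Results.MP_98022b_gt.FilteredGraphProducts

open Pool.Agent.Y110.FJ Pool.Agent.W5h2.GP Pool.Agent.W5h2.RG

theorem result (C : ∀ (G : Type) [Group G], Prop) (hC : ClosedE C)
    (hF : ∀ (X : Type) (α : MulAut (FreeGroup X)),
      C (FreeGroup X ⋊[zpowersHom (MulAut (FreeGroup X)) α] Multiplicative ℤ)) :
    -- part one
    (∀ (n : ℕ) (G I : Type) [Group G] (N : Subgroup G) [N.Normal], C (G ⧸ N) →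
      ∀ (Λ : SimpleGraph I) (A : I → Subgroup G), IsGraphProd Λ N A →
      ∀ r : I → ℕ, (∀ i, r i < n) →
      (∀ (i : I) (g : G), ∃ j, r j = r i ∧ ∃ m ∈ N, ∀ x, x ∈ A i ⊔ Low N A r (r i) ↔
        m * (g * x * g⁻¹) * m⁻¹ ∈ A j ⊔ Low N A r (r i)) →
      (∀ (i : I) (g : G), (∀ x, x ∈ A i ⊔ Low N A r (r i) ↔
        g * x * g⁻¹ ∈ A i ⊔ Low N A r (r i)) → ∀ (H : Type) [Group H] (π : G →* H),
        π.ker = Low N A r (r i) → C ↥((A i ⊔ Subgroup.zpowers g).map π)) → C G) ∧
    -- part two
    ((∀ (S : Type) [Group S], Group.IsSolvable S → C S) →
      ∀ (n : ℕ) (G V : Type) [Group G] (N : Subgroup G) [N.Normal], C (G ⧸ N) →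
      ∀ (Γ : SimpleGraph V) (A : V → Subgroup N), IsGraphProd Γ (⊤ : Subgroup N) A →
      (∀ v, ∀ x ∈ A v, ∀ y ∈ A v, x * y = y * x) →
      ∀ r : V → ℕ, IsHeight Γ A r → (∀ v, r v < n) →
      (∀ g : G, (MulAut.conjNormal g : MulAut N) ∈ StdAut Γ A) → C G) ∧
    -- part three
    (∀ (V M : Type) [Group M] [Finite V] (Γ : SimpleGraph V) (A : V → Subgroup M),
      ∃ r : V → ℕ, IsHeight Γ A r ∧ ∃ n, ∀ v, r v < n) :=
  ⟨fun n G I _ N _ hQ Λ A hA r hr hperm hcyc => main_filt hC hF n G I N hQ Λ A hA r hr hperm hcyc,
    fun hS n _ _ _ _ _ hQ _ _ hM hab _ hr hn hact => main_abel hC hF hS hQ hM hab hr n hn hact,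
    fun _ _ _ _ Γ A => exists_height Γ A⟩

end Pool.Agent.Results.MP_98022b_gt.FilteredGraphProducts
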