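import Pool.Agent.W5h90.FL.GLn
/-!
# Extensions whose kernel consists of finitary transformations
`C` is any class of groups with the closure properties `ClosedE C`, all of which are known for the
class of the groups that satisfy the K- and L-theoretic Farrell–Jones conjecture with coefficients in
additive categories and finite wreath products; if a torsion-free group `G` is in this class, then the
assembly map is an equivalence for the aspherical complexes with fundamental group `G`.

(1) Let `I` be a two-sided ideal of a ring `A` with local units: every finite subset of `I` is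
contained in `e A e` for an idempotent `e` in `I` such that `GL_2(e A e)` is in `C`. Let `N` be a normal
subgroup of `G` with `G ⧸ N` in `C`, and let `G → Aˣ` be a homomorphism which is injective on `N` and
maps `N` to `1 + I`. Then `G` is in `C`.

(2) If `I` has local units such that all `GL_m(e A e)` are in `C`, and all `GL_m(A ⧸ I)` are in `C`, then
all `GL_m(A)` are in `C`.

(3) Let `k` be a field such that all `GL_n(k)` are in `C` (for the Farrell–Jones class for instance
`ℚ` and `𝔽_p(t)`, by Rüping), `K` an algebraic extension of `k`, for instance an algebraic closure, and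
`V` a vector space over `K` of any dimension. Let `G` act on `V` by semilinear maps with respect to
`k`-automorphisms of `K`, and let `N` be a normal subgroup of `G` with `G ⧸ N` in `C` which acts
`K`-linearly, faithfully and finitarily: `n - 1` has finite rank for all `n` in `N`. Then `G` is in `C`.

For instance `N ⋊ Q` is in `C` for all groups `Q` in `C` acting on a set `X` and all `Q`-invariant groups
`N` of invertible `X × X` matrices over a number field which differ from the unit matrix in finitely
many entries.

Idea of the proof. By the criterion `MP_490288_al.RealizationCriterion` one has to realize the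
conjugation by `g` on a finite subset `E` of `N` by an inner automorphism of a group in `C`. Let the
elements of `E` be in `1 + e A e` and let `e'` be an idempotent such that `e` and `f = g e g⁻¹` are in
`e' A e'`. Then `e' - e` and `e' - f` need not be equivalent idempotents, but they become so after the
addition of `e'`; the matrix with the rows `(g e, e' - f)`, `(e' - e, e g⁻¹)` over `e' A e'` is invertible
and realizes the conjugation on the matrices `diag(x, 1)`. In (3) the ring of the semilinear maps is
too large; one finds a finite extension `L` of `k`, stable under all automorphisms, and an `L`-form of a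
finite dimensional subspace of `V` which is stable under `E` and `g E g⁻¹` and in which the
conjugation by `g` is realized by a `k`-linear map.
-/
set_option autoImplicit false
namespace Pool.Agent.Results.MP_98022b_gt.FinitaryKernels
open Pool.Agent.Y110.FJ

/-- Every finite subset of the ideal `I` is contained in `e A e` for an idempotent `e` in `I` such
that the general linear group `GL_m(e A e)` is in `C` for all `m` in `M`. -/
def LocalUnits (C : ∀ (G : Type) [Group G], Prop) (M : Set ℕ) {A : Type} [Ring A] (I : Ideal A) :
    Prop :=
  ∀ F : Set A, F.Finite → F ⊆ I → ∃ (e : A) (he : IsIdempotentElem e), e ∈ I ∧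
    (∀ x ∈ F, e * x = x ∧ x * e = x) ∧ ∀ m ∈ M, C (Matrix (Fin m) (Fin m) he.Corner)ˣ

/-- (1): `G` is in `C` if `G ⧸ N` is in `C` and `G → Aˣ` maps `N` injectively to `1 + I`. -/
def IdealKernels (C : ∀ (G : Type) [Group G], Prop) : Prop :=
  ∀ (A : Type) [Ring A] (I : Ideal A) [I.IsTwoSided], LocalUnits C {2} I →
    ∀ (G : Type) [Group G] (N : Subgroup G) [N.Normal], C (G ⧸ N) → ∀ θ : G →* Aˣ,
      (∀ n ∈ N, (θ n : A) - 1 ∈ I) → (∀ n ∈ N, θ n = 1 → n = 1) → C G

/-- (2): the general linear groups of `A` are in `C` if those of `A ⧸ I` and of the corners are. -/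
def LinearGroups (C : ∀ (G : Type) [Group G], Prop) : Prop :=
  ∀ (A : Type) [Ring A] (I : Ideal A) [I.IsTwoSided], LocalUnits C Set.univ I →
    (∀ m : ℕ, C (Matrix (Fin m) (Fin m) (A ⧸ I))ˣ) → ∀ m : ℕ, C (Matrix (Fin m) (Fin m) A)ˣ

/-- The group `G` acts on the vector space `V` over `K` by semilinear maps, `ρ g` being semilinear with
respect to the `k`-automorphism `σ g` of `K`, and `N` acts linearly, faithfully and finitarily: for `n`
in `N` the map `ρ n - 1` has finite rank. -/
structure Finitary (k K V G : Type) [Field k] [Field K] [Algebra k K] [AddCommGroup V] [Module k V]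
    [Module K V] [Group G] (σ : G →* (K ≃ₐ[k] K)) (ρ : G →* (V ≃ₗ[k] V)) (N : Subgroup G) : Prop where
  semilinear : ∀ (g : G) (a : K) (v : V), ρ g (a • v) = σ g a • ρ g v
  linear : ∀ n ∈ N, σ n = 1
  finitary : ∀ n ∈ N, FiniteDimensional K (Submodule.span K (Set.range fun v => ρ n v - v))
  faithful : ∀ n ∈ N, (∀ v, ρ n v = v) → n = 1

/-- (3): `G` is in `C` if `G ⧸ N` is in `C` and `N` is finitary. -/
def FinitaryKernels (C : ∀ (G : Type) [Group G], Prop) : Prop :=
  ∀ (k K V : Type) [Field k] [Field K] [Algebra k K] [Algebra.IsAlgebraic k K]
    [AddCommGroup V] [Module k V] [Module K V] [IsScalarTower k K V],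
    (∀ n : ℕ, C (GL (Fin n) k)) →
    ∀ (G : Type) [Group G] (N : Subgroup G) [N.Normal], C (G ⧸ N) →
      ∀ (σ : G →* (K ≃ₐ[k] K)) (ρ : G →* (V ≃ₗ[k] V)), Finitary k K V G σ ρ N → C G

theorem result (C : ∀ (G : Type) [Group G], Prop) (hC : ClosedE C) :
    IdealKernels C ∧ LinearGroups C ∧ FinitaryKernels C := by
  refine ⟨?_, ?_, ?_⟩
  · intro A _ I _ hI G _ N _ hQ θ hN hf
    refine Pool.Agent.W5h90.FL.ring_ext hC (I : Set A) (fun x a ha => I.mul_mem_left x ha)
      (fun x a ha => I.mul_mem_right x ha) ?_ G N hQ θ hN hf
    intro F hF hFI
    obtain ⟨e, he, h1, h2, h3⟩ := hI F hF hFI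
    exact ⟨e, he, h1, h2, h3 2 rfl⟩
  · intro A _ I _ hI hQ m
    refine Pool.Agent.W5h90.FL.gl_ext hC I ?_ hQ m
    intro F hF hFI
    obtain ⟨e, he, h1, h2, h3⟩ := hI F hF hFI
    exact ⟨e, he, h1, h2, fun m => h3 m trivial⟩
  · intro k K V _ _ _ _ _ _ _ _ hGL G _ N _ hQ σ ρ h
    exact Pool.Agent.W5h90.FL.fin_ext hC hGL G N hQ σ ρ h.semilinear h.linear h.finitary h.faithful

end Pool.Agent.Results.MP_98022b_gt.FinitaryKernels
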