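import Pool.Agent.W5h38.IM.Main

/-!
# Iterated monodromy groups of contracting correspondences are Farrell–Jones groups

`C` is any class of groups with the closure properties `Closed C`, all of which are known for the
class of the groups that satisfy the K- and L-theoretic Farrell–Jones conjecture with coefficients
and finite wreath products.

Let `M` be a compact, path-connected and semilocally simply connected metric space, `p : M₁ → M` a
covering map with finite fibres and `ι : M₁ → M` a continuous map. The fundamental group of `M` acts on
the tree of the sequences `(x₁, …, x_n)` with `p x₁ = t` and `p x_{i+1} = ι x_i`, and the group of
automorphisms that it induces is the iterated monodromy group of the correspondence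
(Nekrashevych). An example are partial self-coverings `p : M₁ → M`, `M₁ ⊆ M`, such as the restriction
of a hyperbolic rational function to the inverse image of the complement of a neighbourhood of the
postcritical set. If `ι` is locally contracting with respect to `p` (a partial self-covering
is locally expanding), then a loop which acts trivially becomes null-homotopic after finitely many
steps, because its iterated lifts are closed and arbitrarily small. So the iterated
monodromy group is the colimit of the images of the fundamental group of `M` in its iterated
wreath products with finite groups. No bound of the activity of the automorphisms is needed.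
-/

set_option autoImplicit false

namespace Pool.Agent.Results.MP_98022b_gt.IteratedMonodromy

open Pool.Agent.Y462.SS Pool.Agent.W5h38.IM

/-- Let `C` be a class of groups with the closure properties `Closed C`. Let `M` be a compact,
path-connected, semilocally simply connected metric space, `p : M₁ → M` a covering map with finite
fibres and `ι : M₁ → M` a continuous map that contracts locally by a factor `lam < 1` with respect
to `p`. Let `t ∈ M` be such that the fundamental group `π₁(M, t)` is in `C`. Then the classes of the
loops that act trivially (all their iterated lifts are closed) form a normal subgroup `K`
of `π₁(M, t)`, and the iterated monodromy group `π₁(M, t) / K` is in `C`. -/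
theorem result (C : ∀ (G : Type) [Group G], Prop) (hC : Closed C)
    (M M₁ : Type) [MetricSpace M] [CompactSpace M] [PathConnectedSpace M]
    (hM : SemilocallySimplyConnected M) [TopologicalSpace M₁] (p : M₁ → M)
    (hp : IsCoveringMap p) (hfin : ∀ x : M, (p ⁻¹' {x}).Finite) (ι : C(M₁, M))
    (lam : ℝ) (hlam : lam < 1) (hι : LocallyContracts p ι lam) (t : M)
    (hπ : C (FundamentalGroup M t)) :
    ∃ (K : Subgroup (FundamentalGroup M t)) (_ : K.Normal),
      (∀ γ : Path t t, FundamentalGroup.fromPath (Path.Homotopic.Quotient.mk γ) ∈ K ↔
        ActsTrivially p ι γ) ∧
      C (FundamentalGroup M t ⧸ K) :=
  main C hC hp ι hfin hM hlam hι t hπ

end Pool.Agent.Results.MP_98022b_gt.IteratedMonodromy
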