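import Pool.Agent.W5h2.RS.Main

/-!
# Extensions whose kernel has a system of retractions

`C` is any class of groups with the closure properties `ClosedE C`, all of which are published for the
class of the groups that satisfy the Full Farrell–Jones Conjecture.

Let `N` be a normal subgroup of `G` with `G ⧸ N` in `C`. Suppose that `N` has a system of retractions
indexed by the finite subsets of a set `I`: endomorphisms `e S` with `e S ∘ e T = e (S ∩ T)`, such that each
element of `N` is fixed by some `e S`, and such that for each `g` in `G` the conjugation by `g` maps the
kernel of `e S` onto the kernel of `e (σ S)` for some permutation `σ` of `I` and all `S`. The images of the
`e S` need not be permuted. Let `Mixed e S` be the group of the elements `x` with `e S x = x` and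
`e (S \ {i}) x = 1` for all `i ∈ S`. If all groups `Mixed e S ⋊ Z` are in `C`, then `G` is in `C`.

Here the set `I` is arbitrary, so that `N` is in general not poly-free (or poly-anything) and has no
filtration of finite length by normal subgroups of `G` with known factors. Examples are the pure braid
groups with infinitely many strands: `e S` forgets the strands outside `S`, and `Mixed e S` is the group of
the Brunnian braids, which is free (for at least three strands, and infinite cyclic or trivial
otherwise). The theorem applies to all groups in which such a pure braid group is normal, with
quotient in `C`, and in which the conjugations permute the normal subgroups of the braids which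
become trivial when all strands outside `S` are forgotten, as in the braided Houghton groups. Other examples are
the upper triangular McCool groups of infinite rank, and the graph products over infinite graphs.

Outline of the proof. Let `K n` be the intersection of the kernels of the `e S` with less than `n`
elements. This is a normal subgroup of `G`, and `K n ⧸ K (n + 1)` is the restricted direct product of the
groups `Mixed e S` with `n` elements in `S`, because an element which is fixed by `e D` is killed by `e T` as
soon as it is killed by `e (T ∩ D)`. The factors are permuted by `G`. So all `G ⧸ K n` are in `C` by the
theorem on restricted direct products (R941), and `G` is in `C` by the criterion on detected kernels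
(R942), because the image of `e D` meets `K (card D + 1)` trivially.
-/

set_option autoImplicit false

namespace Pool.Agent.Results.MP_98022b_gt.RetractionSystems

open Pool.Agent.Y110.FJ Pool.Agent.W5h2.RS

theorem result (C : ∀ (G : Type) [Group G], Prop) (hC : ClosedE C)
    (G : Type) [Group G] (N : Subgroup G) [N.Normal] (hQ : C (G ⧸ N))
    (I : Type) [DecidableEq I] (e : Finset I → (N →* N)) (he : RetractionSystem N e)
    (hmix : ∀ (S : Finset I) (α : MulAut (Mixed e S)),
      C (Mixed e S ⋊[zpowersHom (MulAut (Mixed e S)) α] Multiplicative ℤ)) : C G :=
  main_retractions hC he hmix hQ

end Pool.Agent.Results.MP_98022b_gt.RetractionSystems
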